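import Pool.Agent.Helper6.LP.St

/-! Project LP, module EXP: from a positive weighted count to a value of `y`. -/

set_option autoImplicit false

noncomputable section

namespace Pool.Agent.Helper8.LP

open Finset
open Pool.Agent.Helper6.LP
open Pool.Agent.Helper98.LM (QQ)

private lemma fa_cast {n y : ℕ} (h : y ≤ n) : (((n - y) + n * y : ℕ) : ℤ) = fa n y := by
  unfold fa
  push_cast [Nat.cast_sub h]
  ring

private lemma fb_cast {n y : ℕ} (h : y ≤ n) : (((n - y) ^ 2 + n * y ^ 2 : ℕ) : ℤ) = fb n y := by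
  unfold fb
  push_cast [Nat.cast_sub h]
  ring

private lemma fa_le {n y : ℕ} (h : y < n) : (n - y) + n * y ≤ n ^ 3 := by
  obtain ⟨d, rfl⟩ := Nat.exists_eq_add_of_lt h
  have e : y + d + 1 - y = d + 1 := by omega
  rw [e]
  nlinarith [Nat.zero_le (y * d), Nat.zero_le (y * y), Nat.zero_le (d * d), Nat.zero_le (y * d * d),
    Nat.zero_le (y * y * d), Nat.zero_le (y * y * y), Nat.zero_le (d * d * d)]

private lemma fb_le {n y : ℕ} (h : y < n) : (n - y) ^ 2 + n * y ^ 2 ≤ n ^ 3 := by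
  obtain ⟨d, rfl⟩ := Nat.exists_eq_add_of_lt h
  have e : y + d + 1 - y = d + 1 := by omega
  rw [e]
  have e2 : (y + d + 1) ^ 3 = (d + 1) ^ 2 + (y + d + 1) * y ^ 2 +
      ((y + d) * (d + 1) ^ 2 + (y + d + 1) * (2 * y * (d + 1))) := by ring
  rw [e2]
  exact Nat.le_add_right _ _

private lemma few {f w n : ℕ} (hw : 2 ≤ w) (hf : 0 < f) (hfn : f ≤ n ^ 3)
    (h : ∀ q : ℕ, q.Prime → q ∣ f → w ≤ q) :
    (ArithmeticFunction.cardFactors f : ℝ) * Real.log w ≤ 3 * Real.log n := by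
  have h1 : w ^ f.primeFactorsList.length ≤ f := by
    have h2 := List.pow_card_le_prod f.primeFactorsList w fun q hq =>
      h q (Nat.prime_of_mem_primeFactorsList hq) (Nat.dvd_of_mem_primeFactorsList hq)
    rwa [Nat.prod_primeFactorsList hf.ne'] at h2
  have h3 : ArithmeticFunction.cardFactors f = f.primeFactorsList.length :=
    ArithmeticFunction.cardFactors_apply
  rw [← h3] at h1
  have hw0 : (0 : ℝ) < w := by exact_mod_cast (by omega : 0 < w)
  have h4 : ((w : ℝ)) ^ (ArithmeticFunction.cardFactors f) ≤ (n : ℝ) ^ 3 := by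
    exact_mod_cast h1.trans hfn
  have h5 := Real.log_le_log (pow_pos hw0 _) h4
  rw [Real.log_pow, Real.log_pow] at h5
  exact_mod_cast h5

theorem hEXP : StEXP := by
  classical
  intro A p w J n r hw hr1 hrP hn hcop hX
  obtain ⟨P, hP⟩ : ∃ P : ℕ, P = primorial p := ⟨_, rfl⟩
  rw [← hP] at hrP hn hcop hX ⊢
  have hP0 : 0 < P := by rw [hP]; exact primorial_pos p
  obtain ⟨a, ha⟩ : ∃ a : ℕ, a = n % P := ⟨_, rfl⟩
  rw [← ha] at hcop hX
  unfold XX at hX
  obtain ⟨j, hj, -⟩ := Finset.exists_ne_zero_of_sum_ne_zero hX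
  obtain ⟨hj1, hj2⟩ := Finset.mem_filter.1 hj
  unfold TT at hj1
  obtain ⟨hj3, -⟩ := Finset.mem_filter.1 hj1
  obtain ⟨-, hj4⟩ := Finset.mem_Icc.1 hj3
  have hnP : n = a + P * (n / P) := by rw [ha]; exact (Nat.mod_add_div n P).symm
  have hyP : r + P * j ≤ P * (J + 1) := by
    have h1 : P * j ≤ P * J := Nat.mul_le_mul_left P hj4
    rw [Nat.mul_add, Nat.mul_one]
    omega
  have e1 : ((a : ℤ) + P * ((n / P : ℕ) : ℤ)) = (n : ℤ) := by
    exact_mod_cast hnP.symm
  rw [e1] at hj2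
  obtain ⟨y, hy⟩ : ∃ y : ℕ, y = r + P * j := ⟨_, rfl⟩
  rw [← hy] at hyP hj2
  have hyn : y < n := lt_of_le_of_lt hyP hn
  have hy1 : 1 ≤ y := by rw [hy]; omega
  have key : ∀ q : ℕ, q.Prime → (q : ℤ) ∣ ff n y → w ≤ q := by
    intro q hq hqf
    by_contra hlt
    have hlt' : q < w := not_le.1 hlt
    by_cases hqp : q ≤ p
    · have hqP : q ∣ P := by rw [hP]; exact (Nat.Prime.dvd_primorial_iff hq).2 hqp
      apply hcop q hq hqp
      have hP' : ((P : ℕ) : ZMod q) = 0 := (ZMod.natCast_eq_zero_iff P q).2 hqP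
      have e2 : ((n : ℕ) : ZMod q) = ((a : ℕ) : ZMod q) := by
        have := congrArg (Nat.cast : ℕ → ZMod q) hnP
        push_cast at this
        rw [this, hP']
        ring
      have e3 : ((y : ℕ) : ZMod q) = ((r : ℕ) : ZMod q) := by
        rw [hy]
        push_cast
        rw [hP']
        ring
      rw [← ZMod.intCast_zmod_eq_zero_iff_dvd] at hqf ⊢
      rw [← hqf]
      unfold ff fa fb
      push_cast
      rw [e2, e3]
    · have hqQ : q ∈ QQ p w := by
        unfold QQ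
        exact Finset.mem_filter.2 ⟨Finset.mem_Ioc.2 ⟨not_le.1 hqp, hlt'.le⟩, hq⟩
      exact hj2 q hqQ hqf
  refine ⟨y, hy1, hyn, hyP, ?_, ?_⟩
  · refine few hw (by omega) (fa_le hyn) fun q hq hqf => key q hq ?_
    unfold ff
    rw [← fa_cast hyn.le]
    exact Dvd.dvd.mul_right (by exact_mod_cast hqf) _
  · refine few hw ?_ (fb_le hyn) fun q hq hqf => key q hq ?_
    · have : 0 < n * y ^ 2 := Nat.mul_pos (by omega) (by positivity)
      omega
    · unfold ff
      rw [← fb_cast hyn.le]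
      exact Dvd.dvd.mul_left (by exact_mod_cast hqf) _

end Pool.Agent.Helper8.LP
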